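import Pool.Agent.W95.BK.Stm

/-!
BK-SPHC: continuity of the spherical derivative.
-/

set_option autoImplicit false

open Polynomial Topology Filter MeasureTheory
open scoped ENNReal

namespace Pool.Agent.W605.BK.SPHC

open Pool.Agent.W95.BK

universe u

section

variable {K : Type u} [NontriviallyNormedField K]

lemma map_neg (x : BA K) (f : K[X]) : x (-f) = x f := by
  have h1 : (-f : K[X]) = C (-1) * f := by simp
  rw [h1, x.map_mul', x.map_C', norm_neg, norm_one, one_mul]

lemma abs_sub_le (x : BA K) (f g : K[X]) : |x (f + g) - x f| ≤ x g := by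
  have h1 := x.map_add' f g
  have h2 : x f ≤ max (x (f + g)) (x g) := by
    have := x.map_add' (f + g) (-g)
    rw [map_neg] at this
    have e : f + g + -g = f := by ring
    rwa [e] at this
  have h3 := x.nonneg' g
  have h4 := x.nonneg' f
  have h5 := x.nonneg' (f + g)
  rw [abs_le]
  constructor
  · rcases le_max_iff.1 h2 with h | h <;> linarith
  · rcases le_max_iff.1 h1 with h | h <;> linarith

lemma sum_le (x : BA K) (N : ℕ) (c : ℕ → K) :
    x (∑ i ∈ Finset.range N, C (c i) * X ^ i) ≤
      ∑ i ∈ Finset.range N, ‖c i‖ * x X ^ i := by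
  induction N with
  | zero => simp [BA.map_zero]
  | succ N ih =>
    rw [Finset.sum_range_succ, Finset.sum_range_succ]
    have h1 := x.map_add' (∑ i ∈ Finset.range N, C (c i) * X ^ i) (C (c N) * X ^ N)
    rw [x.map_mul', x.map_C', BA.map_pow] at h1
    have h2 := x.nonneg' (∑ i ∈ Finset.range N, C (c i) * X ^ i)
    have h3 : 0 ≤ ‖c N‖ * x X ^ N := mul_nonneg (norm_nonneg _) (pow_nonneg (x.nonneg' _) _)
    rcases le_max_iff.1 h1 with h | h <;> linarith

lemma asym (h : K[X]) (N : ℕ) (hN : h.natDegree ≤ N) : ∃ A : ℝ, ∀ y : BA K, 1 ≤ y X →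
    |y h / y X ^ N - ‖h.coeff N‖| ≤ A / y X := by
  refine ⟨∑ i ∈ Finset.range N, ‖h.coeff i‖, fun y hy => ?_⟩
  have ht : 0 < y X := lt_of_lt_of_le one_pos hy
  have htN : 0 < y X ^ N := pow_pos ht N
  have e1 : h = C (h.coeff N) * X ^ N + ∑ i ∈ Finset.range N, C (h.coeff i) * X ^ i := by
    conv_lhs => rw [h.as_sum_range_C_mul_X_pow' (n := N + 1) (by omega)]
    rw [Finset.sum_range_succ, add_comm]
  have h1 := abs_sub_le y (C (h.coeff N) * X ^ N) (∑ i ∈ Finset.range N, C (h.coeff i) * X ^ i)
  rw [← e1, y.map_mul', y.map_C', BA.map_pow] at h1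
  have h2 : ∑ i ∈ Finset.range N, ‖h.coeff i‖ * y X ^ i ≤
      (∑ i ∈ Finset.range N, ‖h.coeff i‖) * (y X ^ N / y X) := by
    rw [Finset.sum_mul]
    refine Finset.sum_le_sum fun i hi => mul_le_mul_of_nonneg_left ?_ (norm_nonneg _)
    have hi' := Finset.mem_range.1 hi
    rw [le_div_iff₀ ht, ← pow_succ]
    exact pow_le_pow_right₀ hy hi'
  have h3 := (h1.trans (sum_le y N h.coeff)).trans h2
  have e2 : y h / y X ^ N - ‖h.coeff N‖ = (y h - ‖h.coeff N‖ * y X ^ N) / y X ^ N := by
    field_simp
  rw [e2, abs_div, abs_of_pos htN, div_le_iff₀ htN]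
  calc |y h - ‖h.coeff N‖ * y X ^ N| ≤ _ := h3
    _ = (∑ i ∈ Finset.range N, ‖h.coeff i‖) / y X * y X ^ N := by ring

/-- The filter of the points tending to infinity. -/
noncomputable def FF (K : Type u) [NontriviallyNormedField K] : Filter (BA K) :=
  comap (fun y : BA K => y X) atTop

lemma tend_X : Tendsto (fun y : BA K => y X) (FF K) atTop := tendsto_comap

lemma tend (h : K[X]) (N : ℕ) (hN : h.natDegree ≤ N) :
    Tendsto (fun y : BA K => y h / y X ^ N) (FF K) (𝓝 ‖h.coeff N‖) := by
  obtain ⟨A, hA⟩ := asym h N hN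
  rw [tendsto_iff_norm_sub_tendsto_zero]
  have h1 : Tendsto (fun y : BA K => A / y X) (FF K) (𝓝 0) := tend_X.const_div_atTop A
  refine squeeze_zero' (Eventually.of_forall fun y => norm_nonneg _) ?_ h1
  filter_upwards [tend_X.eventually (eventually_ge_atTop 1)] with y hy
  rw [Real.norm_eq_abs]
  exact hA y hy

lemma max_pos {P Q : K[X]} (hc : IsCoprime P Q) (y : BA K) : 0 < max (y P) (y Q) := by
  by_contra hcon
  push Not at hcon
  have h1 : y P = 0 := le_antisymm ((le_max_left _ _).trans hcon) (y.nonneg' _)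
  have h2 : y Q = 0 := le_antisymm ((le_max_right _ _).trans hcon) (y.nonneg' _)
  obtain ⟨a, c, hac⟩ := hc
  have h3 := y.map_add' (a * P) (c * Q)
  rw [hac, BA.map_one, y.map_mul', y.map_mul', h1, h2, mul_zero, mul_zero, max_self] at h3
  exact absurd h3 (by norm_num)

lemma max_coeff_pos (R : RMap K) : 0 < max ‖R.P.coeff R.d‖ ‖R.Q.coeff R.d‖ := by
  have hd := R.pos
  rcases max_cases R.P.natDegree R.Q.natDegree with ⟨h, _⟩ | ⟨h, _⟩
  · rw [R.deg_eq] at h
    refine lt_max_of_lt_left (norm_pos_iff.2 ?_)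
    rw [h]
    change R.P.leadingCoeff ≠ 0
    rw [leadingCoeff_ne_zero]
    rintro h0
    rw [h0, natDegree_zero] at h
    omega
  · rw [R.deg_eq] at h
    refine lt_max_of_lt_right (norm_pos_iff.2 ?_)
    rw [h]
    change R.Q.leadingCoeff ≠ 0
    rw [leadingCoeff_ne_zero]
    rintro h0
    rw [h0, natDegree_zero] at h
    omega

lemma natDegree_wr (R : RMap K) : (wr R).natDegree ≤ 2 * R.d - 2 := by
  have hd := R.pos
  have hP : R.P.natDegree ≤ R.d := R.deg_eq ▸ le_max_left _ _
  have hQ : R.Q.natDegree ≤ R.d := R.deg_eq ▸ le_max_right _ _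
  have hP' : (derivative R.P).natDegree ≤ R.d - 1 :=
    (natDegree_derivative_le _).trans (by omega)
  have hQ' : (derivative R.Q).natDegree ≤ R.d - 1 :=
    (natDegree_derivative_le _).trans (by omega)
  rw [natDegree_le_iff_coeff_eq_zero]
  intro m hm
  unfold wr
  rcases Nat.lt_or_ge m (2 * R.d) with h | h
  · have h1 : m = (R.d - 1) + R.d := by omega
    have h2 : m = R.d + (R.d - 1) := by omega
    have h3 : R.d - 1 + 1 = R.d := by omega
    rw [coeff_sub]
    conv_lhs => congr
                · rw [h1, coeff_mul_add_eq_of_natDegree_le hP' hQ]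
                · rw [h2, coeff_mul_add_eq_of_natDegree_le hP hQ']
    rw [coeff_derivative, coeff_derivative, h3]
    ring
  · refine coeff_eq_zero_of_natDegree_lt ?_
    refine lt_of_le_of_lt (natDegree_sub_le_of_le (m := (R.d - 1) + R.d) (n := R.d + (R.d - 1))
      (natDegree_mul_le_of_le hP' hQ) (natDegree_mul_le_of_le hP hQ')) ?_
    rw [max_lt_iff]
    omega

lemma tend_sph (R : RMap K) : Tendsto (fun y : BA K => sphDeriv R (y : P1B K)) (FF K)
    (𝓝 (sphDeriv R OnePoint.infty)) := by
  have hd := R.pos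
  have hP : R.P.natDegree ≤ R.d := R.deg_eq ▸ le_max_left _ _
  have hQ : R.Q.natDegree ≤ R.d := R.deg_eq ▸ le_max_right _ _
  have h1 := (tend (wr R) _ (natDegree_wr R)).div
    (((tend R.P _ hP).max (tend R.Q _ hQ)).pow 2) (pow_ne_zero _ (max_coeff_pos R).ne')
  refine Tendsto.congr' ?_ h1
  filter_upwards [tend_X.eventually (eventually_ge_atTop 1)] with y hy
  have ht : 0 < y X := lt_of_lt_of_le one_pos hy
  have htd : 0 < y X ^ R.d := pow_pos ht _
  change y (wr R) / y X ^ (2 * R.d - 2) / max (y R.P / y X ^ R.d) (y R.Q / y X ^ R.d) ^ 2 =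
    y (wr R) * max 1 (y X) ^ 2 / max (y R.P) (y R.Q) ^ 2
  rw [max_div_div_right htd.le, max_eq_right hy]
  have hm := max_pos R.cop y
  have e1 : y X ^ R.d ^ 1 * y X ^ R.d = y X ^ (2 * R.d - 2) * y X ^ 2 := by
    rw [pow_one, ← pow_add, ← pow_add]
    congr 1
    omega
  rw [div_pow, div_div_div_eq, div_eq_div_iff (mul_pos (pow_pos ht _) (pow_pos hm _)).ne'
    (pow_pos hm _).ne']
  rw [pow_one] at e1
  have e2 : (y X ^ R.d) ^ 2 = y X ^ (2 * R.d - 2) * y X ^ 2 := by rw [sq, e1]
  rw [e2]
  ring

end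

theorem main : S_EV.{u} → S_NB.{u} → S_AVOID.{u} → S_SPHC.{u} := by
  intro hEV hNB hAV K _ _ _ R
  have hnn : ∀ x, 0 ≤ sphDeriv R x := by
    intro x
    induction x using OnePoint.rec with
    | infty => exact div_nonneg (norm_nonneg _) (sq_nonneg _)
    | coe y => exact div_nonneg (mul_nonneg (y.nonneg' _) (sq_nonneg _)) (sq_nonneg _)
  refine ⟨?_, hnn, ?_⟩
  · rw [continuous_iff_continuousAt]
    intro x
    induction x using OnePoint.rec with
    | infty =>
      rw [ContinuousAt, Metric.tendsto_nhds]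
      intro ε hε
      have h1 := Metric.tendsto_nhds.1 (tend_sph R) ε hε
      obtain ⟨s, hs, hs'⟩ := mem_comap.1 h1
      obtain ⟨r, hr⟩ := mem_atTop_sets.1 hs
      have h2 := ((hNB K).2.2.2 0 r).mem_nhds (x := (OnePoint.infty : P1B K)) (by
        intro y hy
        exact absurd hy (OnePoint.infty_ne_coe y))
      filter_upwards [h2] with x hx
      induction x using OnePoint.rec with
      | infty => rw [dist_self]; exact hε
      | coe y =>
        have h3 : r < lam y 0 := hx y rfl
        have h4 : lam y 0 = y X := by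
          change y (X - C 0) = y X
          rw [C_0, sub_zero]
        rw [h4] at h3
        exact hs' (hr _ h3.le)
    | coe y =>
      rw [OnePoint.continuousAt_coe]
      have h1 : Continuous (fun y : BA K => y (wr R) * max 1 (y X) ^ 2 /
          max (y R.P) (y R.Q) ^ 2) :=
        (((hEV K _).mul ((continuous_const.max (hEV K _)).pow 2))).div
          (((hEV K _).max (hEV K _)).pow 2) fun y => pow_ne_zero _ (max_pos R.cop y).ne'
      exact h1.continuousAt
  · intro hW
    constructor
    · intro x hx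
      have h1 := (hAV K x hx).1 _ hW
      have h2 : 0 < x (wr R) := lt_of_le_of_ne (x.nonneg' _) h1.symm
      exact div_pos (mul_pos h2 (pow_pos (lt_of_lt_of_le one_pos (le_max_left _ _)) _))
        (pow_pos (max_pos R.cop x) _)
    · intro x hx
      induction x using OnePoint.rec with
      | infty => exact Or.inl rfl
      | coe y =>
        right
        have hx' : y (wr R) * max 1 (y X) ^ 2 / max (y R.P) (y R.Q) ^ 2 = 0 := hx
        have h1 : y (wr R) = 0 := by
          rcases div_eq_zero_iff.1 hx' with h | h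
          · rcases mul_eq_zero.1 h with h | h
            · exact h
            · exact absurd h (pow_pos (lt_of_lt_of_le one_pos (le_max_left _ _)) _).ne'
          · exact absurd h (pow_pos (max_pos R.cop y) _).ne'
        have h2 : ¬ HK y := fun h => (hAV K y h).1 _ hW h1
        unfold HK at h2
        push Not at h2
        obtain ⟨c, rfl⟩ := h2
        refine ⟨c, ?_, rfl⟩
        have h3 : ‖(wr R).eval c‖ = 0 := h1
        exact norm_eq_zero.1 h3

end Pool.Agent.W605.BK.SPHC
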